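import Pool.Agent.Helper15.BP.Sec

/-!
# The high-slope part of the fibre family (project BP, MP_a4e7e3)
-/

set_option autoImplicit false

namespace Pool.Agent.Helper15.BP

open Finset

theorem fib_D {G : Type} [AddCommGroup G] [Finite G] (A : Fam G) (H : AddSubgroup G) :
    (A.fib A).D H = 2 * A.D H - (A.add A).D ⊥ + secD A H ⊥ := by
  have e1 : Ent (prodW A.w A.w) (fun p => (((A.J p.1, A.J p.2), A.Y p.1 + A.Y p.2),
      (QuotientAddGroup.mk (A.Y p.1) : G ⧸ H))) =
      Ent (prodW A.w A.w) (fun p => ((A.J p.1, A.J p.2),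
        ((QuotientAddGroup.mk (A.Y p.1) : G ⧸ H), (QuotientAddGroup.mk (A.Y p.2) : G ⧸ H)),
        (QuotientAddGroup.mk (A.Y p.1 + A.Y p.2) : G ⧸ (⊥ : AddSubgroup G)))) := by
    refine Ent_congr fun o o' => ?_
    simp only [Prod.mk.injEq, Fam.mk_eq_iff, AddSubgroup.mem_bot, sub_eq_zero]
    constructor
    · rintro ⟨⟨h1, h2⟩, h3⟩
      refine ⟨h1, ⟨h3, ?_⟩, h2⟩
      have h4 : A.Y o.2 - A.Y o'.2 = -(A.Y o.1 - A.Y o'.1) := by
        have h5 : A.Y o.1 + A.Y o.2 - (A.Y o'.1 + A.Y o'.2) = 0 := sub_eq_zero.2 h2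
        have h6 : A.Y o.2 - A.Y o'.2 + (A.Y o.1 - A.Y o'.1) = 0 := by
          rw [← h5]; abel
        exact eq_neg_of_add_eq_zero_left h6
      rw [h4]
      exact neg_mem h3
    · rintro ⟨h1, ⟨h3, -⟩, h2⟩
      exact ⟨⟨h1, h2⟩, h3⟩
  have e2 : Ent (prodW A.w A.w) (fun p => ((A.J p.1, A.J p.2),
      ((QuotientAddGroup.mk (A.Y p.1) : G ⧸ H), (QuotientAddGroup.mk (A.Y p.2) : G ⧸ H)))) =
      Ent A.w (fun o => (A.J o, (QuotientAddGroup.mk (A.Y o) : G ⧸ H))) +
        Ent A.w (fun o => (A.J o, (QuotientAddGroup.mk (A.Y o) : G ⧸ H))) := by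
    rw [← Ent_prod A.hw A.hw]
    refine Ent_congr fun o o' => ?_
    simp only [Prod.mk.injEq]
    tauto
  have e3 : Ent (prodW A.w A.w) (fun p => (A.J p.1, A.J p.2)) = Ent A.w A.J + Ent A.w A.J :=
    Ent_prod A.hw A.hw A.J A.J
  have h1 := (A.add A).D_bot
  have h2 : Real.log (Nat.card G) = Real.log H.index +
      Real.log ((⊥ : AddSubgroup G).relIndex H) := by
    have h3 : (⊥ : AddSubgroup G).relIndex H * H.index = Nat.card G := by
      rw [AddSubgroup.relIndex_mul_index bot_le, AddSubgroup.index_bot]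
    have h4 : ((⊥ : AddSubgroup G).relIndex H : ℝ) * H.index = Nat.card G := by exact_mod_cast h3
    have h5 : (Nat.card G : ℝ) ≠ 0 := by exact_mod_cast Nat.card_pos.ne'
    rw [← h4] at h5 ⊢
    rw [Real.log_mul (left_ne_zero_of_mul h5) (right_ne_zero_of_mul h5), add_comm]
  have h3 : (A.add A).D ⊥ = Real.log (Nat.card G) -
      (Ent (prodW A.w A.w) (fun p => ((A.J p.1, A.J p.2), A.Y p.1 + A.Y p.2)) -
        Ent (prodW A.w A.w) (fun p => (A.J p.1, A.J p.2))) := h1
  have h4 : (A.fib A).D H = Real.log H.index -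
      (Ent (prodW A.w A.w) (fun p => (((A.J p.1, A.J p.2), A.Y p.1 + A.Y p.2),
        (QuotientAddGroup.mk (A.Y p.1) : G ⧸ H))) -
        Ent (prodW A.w A.w) (fun p => ((A.J p.1, A.J p.2), A.Y p.1 + A.Y p.2))) := rfl
  have h5 : A.D H = Real.log H.index -
      (Ent A.w (fun o => (A.J o, (QuotientAddGroup.mk (A.Y o) : G ⧸ H))) - Ent A.w A.J) := rfl
  rw [h4, h3, h5, e1, e3, h2]
  unfold secD
  rw [e2]
  ring

/-- the high-slope part of the fibre family -/
theorem excess {G : Type} [AddCommGroup G] [Finite G] (h2 : ∀ x : G, x + x = 0) (A : Fam G)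
    (κ σ : ℝ) (hκ : 0 ≤ κ) (hσ0 : 0 ≤ σ) (_hσ1 : σ ≤ 1) (hC : Contr (8 * κ) σ)
    (hs : ∀ K : AddSubgroup G, A.D K ≤ κ * Real.log K.index) :
    ∃ H : AddSubgroup G,
      (∀ K ≤ H, (A.fib A).D K - (A.fib A).D H ≤ 8 * κ * (Real.log K.index - Real.log H.index)) ∧
      8 * κ * Real.log H.index ≤ (A.fib A).D H ∧
      (A.fib A).D H ≤ 8 / 5 * (σ * A.D ⊥ - (A.add A).D ⊥) := by
  set F := A.fib A with hF
  obtain ⟨H, hH⟩ := Finite.exists_max
    (fun H : AddSubgroup G => F.D H - 8 * κ * Real.log H.index)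
  have hmax : ∀ K : AddSubgroup G,
      F.D K - F.D H ≤ 8 * κ * (Real.log K.index - Real.log H.index) := by
    intro K
    have := hH K
    linarith
  have htop := hH ⊤
  simp only [Fam.D_top, AddSubgroup.index_top, Nat.cast_one, Real.log_one, mul_zero,
    sub_zero] at htop
  have hb : 8 * κ * Real.log H.index ≤ F.D H := by linarith
  refine ⟨H, fun K _ => hmax K, hb, ?_⟩
  have hne : Nonempty {K : AddSubgroup G // K ≤ H} := ⟨⟨H, le_refl H⟩⟩
  obtain ⟨⟨K, hKH⟩, hK⟩ := Finite.exists_max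
    (fun K : {K : AddSubgroup G // K ≤ H} => A.D K.1 - 2 * κ * Real.log K.1.index)
  simp only [Subtype.forall] at hK
  have hKH1 := hK H (le_refl H)
  have hDH := A.D_nonneg H
  have hsK := hs K
  have hsH := hs H
  have hKi : κ * Real.log K.index ≤ 2 * κ * Real.log H.index := by linarith
  have hmono : ∀ K' : AddSubgroup G, K' ≤ K → Real.log K.index ≤ Real.log K'.index := by
    intro K' hK'
    apply Real.log_le_log
    · exact_mod_cast Nat.pos_of_ne_zero (AddSubgroup.index_ne_zero_of_finite (H := K))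
    · exact_mod_cast Nat.le_of_dvd
        (Nat.pos_of_ne_zero (AddSubgroup.index_ne_zero_of_finite (H := K')))
        (AddSubgroup.index_dvd_of_le hK')
  have hsec := secD_section hC A (H := ⊥) (V := K) bot_le
    (fun x _ => by rw [h2 x]; exact zero_mem _) (fun K' _ hK' => by
      have h3 := hK K' (hK'.trans hKH)
      have h4 := hmono K' hK'
      have h5 : 0 ≤ κ * (Real.log K'.index - Real.log K.index) :=
        mul_nonneg hκ (by linarith)
      nlinarith)
  have hDK := A.D_nonneg K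
  have hch := secD_chain A (L := ⊥) (K := K) (V := H) bot_le hKH
  have hle := secD_le A hKH
  have hfib := fib_D A H
  have h6 : σ * (A.D ⊥ - A.D K) ≤ σ * A.D ⊥ := by
    apply mul_le_mul_of_nonneg_left _ hσ0
    linarith
  linarith

end Pool.Agent.Helper15.BP
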